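import Mathlib

set_option autoImplicit false

open Set Filter Topology

namespace Pool.Agent.Results.MP_d594f7_lc.No

/-- infinite subsets of the naturals, as a subspace of Cantor space -/
abbrev Inf : Type := {x : ℕ → Bool // {n | x n = true}.Infinite}

/-- the Ellentuck neighbourhood `[s,A]` -/
def Ell (s : Finset ℕ) (A : Set ℕ) : Set Inf :=
  {x | (∀ n ∈ s, x.1 n = true) ∧ (∀ n, x.1 n = true → n ∈ s ∨ n ∈ A) ∧
    ∀ n, x.1 n = true → (∃ a ∈ s, n ≤ a) → n ∈ s}

def RamseyNull (N : Set Inf) : Prop :=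
  ∀ (s : Finset ℕ) (A : Set ℕ), A.Infinite → (∀ a ∈ s, ∀ b ∈ A, a < b) →
    ∃ B ⊆ A, B.Infinite ∧ Ell s B ∩ N = ∅

def cnt (n : ℕ) (x : Inf) : ℕ := ∑ j ∈ Finset.range n, if x.1 j = true then 1 else 0

def par (n : ℕ) (x : Inf) : ℝ := if Odd (cnt n x) then 1 else 0

theorem par_cont (n : ℕ) : Continuous (par n) := by
  have h : Continuous (cnt n) := continuous_finset_sum _ fun j _ =>
    (continuous_of_discreteTopology (f := fun b : Bool => if b = true then 1 else (0 : ℕ))).comp
      ((continuous_apply j).comp continuous_subtype_val)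
  exact (continuous_of_discreteTopology (f := fun c : ℕ => if Odd c then (1 : ℝ) else 0)).comp h

theorem par_mem (n : ℕ) (x : Inf) : par n x ∈ Icc (0 : ℝ) 1 := by
  unfold par; split_ifs <;> simp

theorem avg_le (g : ℕ → ℝ) (hg : ∀ j, g j ≤ 1) (b n : ℕ) (hn : 3 * (b + 1) ≤ n)
    (h : ∀ j, b < j → j < n → g j = 0) :
    (1 / (n : ℝ)) * ∑ j ∈ Finset.range n, g j ≤ 1 / 3 := by
  have h1 : ∑ j ∈ Finset.range n, g j = ∑ j ∈ Finset.range (b + 1), g j := by
    symm
    refine Finset.sum_subset (Finset.range_subset_range.2 (by omega)) fun j a c => ?_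
    simp only [Finset.mem_range] at a c
    exact h j (by omega) a
  have h2 : ∑ j ∈ Finset.range (b + 1), g j ≤ (b + 1 : ℝ) := by
    have := Finset.sum_le_card_nsmul (Finset.range (b + 1)) g 1 fun j _ => hg j
    simpa using this
  have h3 : (3 * (b + 1) : ℝ) ≤ n := by exact_mod_cast hn
  have h4 : (0 : ℝ) < n := by have : (0 : ℝ) ≤ b := Nat.cast_nonneg b; linarith
  rw [h1, one_div_mul_eq_div, div_le_iff₀ h4]
  linarith

/-- There are continuous functions with values in the unit interval such that, for every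
subsequence of the functions and every subsequence of its Cesaro averages, the set of points of
divergence is contained in no Ramsey null set. -/
theorem result : ∃ f : ℕ → Inf → ℝ, (∀ n, Continuous (f n)) ∧ (∀ n x, f n x ∈ Icc (0 : ℝ) 1) ∧
    ∀ m : ℕ → ℕ, StrictMono m → ∀ n : ℕ → ℕ, StrictMono n → ∀ N : Set Inf, RamseyNull N →
      ∃ x, x ∉ N ∧ ¬ ∃ L : ℝ, Tendsto
        (fun k => (1 / (n k : ℝ)) * ∑ j ∈ Finset.range (n k), f (m j) x) atTop (𝓝 L) := by
  classical
  refine ⟨par, par_cont, par_mem, fun m hm n hn N hN => ?_⟩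
  obtain ⟨B, -, hB, hBN⟩ := hN ∅ univ infinite_univ (by simp)
  choose nx hx1 hx2 using hB.exists_gt
  let K : ℕ → ℕ → ℕ := fun i b => max i (3 * (b + 1))
  let b : ℕ → ℕ := fun i => Nat.rec (nx 0) (fun i c => nx (max c (m (n (K i c))))) i
  have hb : ∀ i, b (i + 1) = nx (max (b i) (m (n (K i (b i))))) := fun i => rfl
  have hbm : StrictMono b := strictMono_nat_of_lt_succ fun i => by
    rw [hb]; exact (le_max_left _ _).trans_lt (hx2 _)
  have hbB : ∀ i, b i ∈ B := fun i => by cases i <;> exact hx1 _
  let x : Inf := ⟨fun j => decide (j ∈ range b), by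
    simp only [decide_eq_true_eq]; exact infinite_range_of_injective hbm.injective⟩
  have hc : ∀ i t, b i < t → t ≤ b (i + 1) → cnt t x = i + 1 := by
    intro i t h1 h2
    unfold cnt
    rw [← Finset.card_filter]
    have : (Finset.range t).filter (fun j => x.1 j = true) = (Finset.range (i + 1)).image b := by
      ext j
      simp only [x, Finset.mem_filter, Finset.mem_range, decide_eq_true_eq, mem_range,
        Finset.mem_image]
      constructor
      · rintro ⟨a, l, rfl⟩
        exact ⟨l, hbm.lt_iff_lt.1 (a.trans_le h2), rfl⟩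
      · rintro ⟨l, a, rfl⟩
        exact ⟨(hbm.monotone (by omega)).trans_lt h1, l, rfl⟩
    rw [this, Finset.card_image_of_injective _ hbm.injective, Finset.card_range]
  have hv : ∀ i j, b i < j → j < n (K i (b i)) → cnt (m j) x = i + 1 := fun i j h1 h2 =>
    hc i _ (h1.trans_le (hm.id_le j)) (by
      rw [hb]; exact (hm.monotone h2.le).trans ((le_max_right _ _).trans (hx2 _).le))
  have hK : ∀ i, 3 * (b i + 1) ≤ n (K i (b i)) := fun i =>
    (le_max_right _ _).trans (hn.id_le _)
  refine ⟨x, fun hx => ?_, ?_⟩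
  · have : x ∈ Ell ∅ B ∩ N := ⟨⟨by simp, fun j hj => Or.inr (by
      simp only [x, decide_eq_true_eq] at hj
      obtain ⟨l, rfl⟩ := hj; exact hbB l), by simp⟩, hx⟩
    rw [hBN] at this; exact this
  · rintro ⟨L, hL⟩
    have t : Tendsto (fun i => K i (b i)) atTop atTop :=
      tendsto_atTop_mono (fun i => le_max_left _ _) tendsto_id
    have t1 : Tendsto (fun i : ℕ => 2 * i + 1) atTop atTop :=
      tendsto_atTop_mono (fun i => by simp only [id]; omega) tendsto_id
    have t2 : Tendsto (fun i : ℕ => 2 * i) atTop atTop :=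
      tendsto_atTop_mono (fun i => by simp only [id]; omega) tendsto_id
    have a1 : L ≤ 1 / 3 := le_of_tendsto' ((hL.comp t).comp t1) fun i =>
      avg_le _ (fun j => (par_mem _ _).2) _ _ (hK _) fun j h1 h2 => by
        unfold par; rw [hv _ j h1 h2, if_neg]
        rw [Nat.not_odd_iff_even]; exact ⟨i + 1, by ring⟩
    have a2 : 2 / 3 ≤ L := ge_of_tendsto' ((hL.comp t).comp t2) fun i => by
      have := avg_le (fun j => 1 - par (m j) x) (fun j => by linarith [(par_mem (m j) x).1])
        _ _ (hK (2 * i)) fun j h1 h2 => by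
          unfold par; rw [hv _ j h1 h2, if_pos ⟨i, rfl⟩]; simp
      have h4 : (0 : ℝ) < n (K (2 * i) (b (2 * i))) := by
        have := hK (2 * i); exact_mod_cast (by omega : 0 < n (K (2 * i) (b (2 * i))))
      rw [Finset.sum_sub_distrib, mul_sub] at this
      simp only [Finset.sum_const, Finset.card_range, nsmul_eq_mul, mul_one] at this
      rw [one_div_mul_cancel h4.ne'] at this
      simp only [Function.comp]
      linarith
    linarith

end Pool.Agent.Results.MP_d594f7_lc.No
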